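import Mathlib
import Pool.Agent.P.MP_2ce53a_nt.Sound
import Pool.Agent.P.MP_2ce53a_nt.P3x5.Data

namespace Pool.Agent.P.MP_2ce53a_nt.P3x5

open Pool.Agent.P.MP_2ce53a_nt

theorem c0 : chk ctx (.loop 0x1000800302000120000008001000000b0110000006011000000101100200000240000018000 ⟨⟨⟨0, 2, 29686813949950⟩, ⟨29686813949950, 0, 0⟩, ⟨29686813949951, 1, 1⟩⟩, 2, false, 0, 0, 0, 0⟩
 (.loop 0x302010020000007001000000b01100000090110000001011000010400800302010020000007001000000b011000000901100000010110020001014000001a000000010300700200000140000019000 ⟨⟨⟨29686813949950, 2, 2⟩, ⟨3, 3, 29686813949951⟩, ⟨0, 4, 29686813949948⟩⟩, 4, false, 0, 0, 0, 0⟩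
 (.loop 0x10900300002130080020001014000001a000000020d007000000700300200000140000019000 ⟨⟨⟨29686813949950, 29686813949950, 29686813949950⟩, ⟨29686813949949, 3, 29686813949951⟩, ⟨0, 4, 29686813949948⟩⟩, 4, false, 0, 0, 0, 0⟩
 (.loop 0x10d003000030700800200000240000018000 ⟨⟨⟨0, 29686813949950, 2⟩, ⟨2, 0, 0⟩, ⟨1, 1, 1⟩⟩, 2, false, 0, 0, 0, 0⟩
 (.run 3 0x2600000000260020000014000000002600005000030020000014002000001400000000460000500003000001a00000200000140000500003000001a00000000000460020000014002000001400000000460000500003000001a00000200000140000500003000001a00000000000460020000014002000001400200000140000000046000050000300000180000020000014000000004600005000030000018000002000001400200000140000000046000050000300000180000020000014000000004600005000030000018000002000001400200000140020000014002000001400000000460000500003000001900000200000140000000046000050000300000190000020000014002000001400000000460020000014002000001400200000040000401003000040500300200000140000402003000000008600200000140020000014000040d0030000411003002000001400004000030000000086002000001400200000140020000004000000018600000001860000000186003000001400000001860000000186000000018600300000140000000186000000018600000001860030000014003000001400001130030000117003000000018600300000140000000186000010d003000011200300300000140000010003000000018600000000030030000014003000001400002130030000217003000000018600300000140000000186000020d00300002120030030000014000031000300000001860000300003003000001400300000140030000004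
 .nil))))) 0 7 = true := by decide +kernel

theorem m0 {n : ℕ} (H : Hyp ctx n) (h : ∀ c < 0, Emp ctx n c) : ∀ c < 7, Emp ctx n c :=
  (chk_sound H c0
  h)

end Pool.Agent.P.MP_2ce53a_nt.P3x5
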